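import Pool.Agent.K4H49.IR.Spec

set_option autoImplicit false

open Finset

namespace Pool.Agent.K4H49.IR

/-- the `k`-subsets of `T` through `h ∈ T` -/
theorem card_through {α : Type} [DecidableEq α] (T : Finset α) (h : α) (hT : h ∈ T) (k : ℕ)
    (hk : 1 ≤ k) :
    ((powersetCard k T).filter (h ∈ ·)).card = (T.card - 1).choose (k - 1) := by
  obtain ⟨j, rfl⟩ : ∃ j, k = j + 1 := ⟨k - 1, by omega⟩
  have h1 : (powersetCard (j + 1) T).filter (h ∈ ·) =
      (powersetCard j (T.erase h)).image (insert h) := by
    ext s
    simp only [mem_filter, mem_powersetCard, mem_image]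
    constructor
    · rintro ⟨⟨h2, h3⟩, h4⟩
      refine ⟨s.erase h, ⟨erase_subset_erase h h2, ?_⟩, insert_erase h4⟩
      rw [card_erase_of_mem h4, h3]
      rfl
    · rintro ⟨t, ⟨h2, h3⟩, rfl⟩
      have h5 : h ∉ t := fun h6 => by
        have := h2 h6
        simp at this
      refine ⟨⟨?_, ?_⟩, mem_insert_self h t⟩
      · exact insert_subset hT (h2.trans (erase_subset h T))
      · rw [card_insert_of_notMem h5, h3]
  rw [h1, card_image_of_injOn, card_powersetCard, card_erase_of_mem hT]
  · rfl
  · intro t ht t' ht' e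
    have h5 : h ∉ t := fun h6 => by
      have := (mem_powersetCard.1 (mem_coe.1 ht)).1 h6
      simp at this
    have h6 : h ∉ t' := fun h6 => by
      have := (mem_powersetCard.1 (mem_coe.1 ht')).1 h6
      simp at this
    have := congrArg (fun u => u.erase h) e
    simpa [erase_insert h5, erase_insert h6] using this

theorem isClique_iff {M q : ℕ} (N : Fin q → Finset (Fin M)) (s : Finset (Fin M ⊕ Fin q)) :
    (split N).IsClique (s : Set (Fin M ⊕ Fin q)) ↔
      (∀ l ∈ s.toRight, s.toLeft ⊆ N l) ∧ (∀ l ∈ s.toRight, ∀ l' ∈ s.toRight, l = l') := by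
  constructor
  · intro h
    refine ⟨fun l hl a ha => ?_, fun l hl l' hl' => ?_⟩
    · have h1 : Sum.inr l ∈ s := mem_toRight.1 hl
      have h2 : Sum.inl a ∈ s := mem_toLeft.1 ha
      exact h (mem_coe.2 h2) (mem_coe.2 h1) (by simp)
    · by_contra hne
      exact h (mem_coe.2 (mem_toRight.1 hl)) (mem_coe.2 (mem_toRight.1 hl'))
        (fun e => hne (Sum.inr_injective e))
  · rintro ⟨h1, h2⟩ x hx y hy hxy
    rcases x with a | l <;> rcases y with b | k
    · exact fun e => hxy (by rw [e])
    · exact h1 k (mem_toRight.2 (mem_coe.1 hy)) (mem_toLeft.2 (mem_coe.1 hx))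
    · exact h1 l (mem_toRight.2 (mem_coe.1 hx)) (mem_toLeft.2 (mem_coe.1 hy))
    · exact hxy (by rw [h2 l (mem_toRight.2 (mem_coe.1 hx)) k (mem_toRight.2 (mem_coe.1 hy))])

theorem spl2 : StSpl2 := by
  intro M q N n hn h
  let A0 : Finset (Finset (Fin M ⊕ Fin q)) :=
    ((powersetCard n (univ : Finset (Fin M))).filter (h ∈ ·)).image (fun t => t.disjSum ∅)
  let A : Fin q → Finset (Finset (Fin M ⊕ Fin q)) := fun l =>
    ((powersetCard (n - 1) (N l)).filter (h ∈ ·)).image (fun t => t.disjSum {l})
  have hset : {s : Finset (Fin M ⊕ Fin q) | (split N).IsNClique n s ∧ Sum.inl h ∈ s} =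
      ((A0 ∪ (univ.filter fun l => h ∈ N l).biUnion A : Finset _) : Set _) := by
    ext s
    simp only [Set.mem_ofPred_eq, coe_union, Set.mem_union, mem_coe, A0, A, mem_image, mem_filter,
      mem_biUnion, mem_univ, true_and, mem_powersetCard, SimpleGraph.isNClique_iff, isClique_iff,
      subset_univ]
    constructor
    · rintro ⟨⟨⟨h1, h2⟩, h3⟩, h4⟩
      rcases s.toRight.eq_empty_or_nonempty with h5 | ⟨l, hl⟩
      · left
        refine ⟨s.toLeft, ⟨?_, mem_toLeft.2 h4⟩, ?_⟩
        · have := s.card_toLeft_add_card_toRight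
          rw [h5, card_empty] at this
          omega
        · conv_rhs => rw [← s.toLeft_disjSum_toRight]
          rw [h5]
      · right
        have h6 : s.toRight = {l} := by
          ext l'
          rw [mem_singleton]
          exact ⟨fun h7 => h2 l' h7 l hl, fun e => e ▸ hl⟩
        have h7 := h1 l hl
        refine ⟨l, h7 (mem_toLeft.2 h4), s.toLeft, ⟨⟨h7, ?_⟩, mem_toLeft.2 h4⟩, ?_⟩
        · have := s.card_toLeft_add_card_toRight
          rw [h6, card_singleton] at this
          omega
        · conv_rhs => rw [← s.toLeft_disjSum_toRight]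
          rw [h6]
    · rintro (⟨t, ⟨h1, h2⟩, rfl⟩ | ⟨l, h0, t, ⟨⟨h1, h1'⟩, h2⟩, rfl⟩)
      · refine ⟨⟨⟨?_, ?_⟩, ?_⟩, ?_⟩
        · simp
        · simp
        · simp [h1]
        · simpa using h2
      · refine ⟨⟨⟨?_, ?_⟩, ?_⟩, ?_⟩
        · simpa using h1
        · simp
        · simp [h1']; omega
        · simpa using h2
  rw [hset, Set.ncard_coe_finset, card_union_of_disjoint, card_biUnion]
  · congr 1
    · rw [card_image_of_injective, card_through _ _ (mem_univ h) n (by omega), card_univ,
        Fintype.card_fin]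
      intro t t' e
      have := congrArg Finset.toLeft e
      simp only [toLeft_disjSum] at this
      exact this
    · refine sum_congr rfl fun l hl => ?_
      simp only [mem_filter, mem_univ, true_and] at hl
      rw [card_image_of_injective, card_through _ _ hl (n - 1) (by omega)]
      · congr 1
      · intro t t' e
        have := congrArg Finset.toLeft e
        simp only [toLeft_disjSum] at this
        exact this
  · intro l hl l' hl' hne
    rw [Function.onFun, disjoint_left]
    intro s hs hs'
    simp only [A, mem_image] at hs hs'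
    obtain ⟨t, -, rfl⟩ := hs
    obtain ⟨t', -, e⟩ := hs'
    have := congrArg Finset.toRight e
    simp only [toRight_disjSum] at this
    exact hne (singleton_injective this).symm
  · rw [disjoint_left]
    intro s hs hs'
    simp only [A0, A, mem_image, mem_biUnion] at hs hs'
    obtain ⟨t, -, rfl⟩ := hs
    obtain ⟨l, -, t', -, e⟩ := hs'
    have := congrArg Finset.toRight e
    simp only [toRight_disjSum] at this
    exact singleton_ne_empty l this

end Pool.Agent.K4H49.IR
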